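import Pool.Agent.W_MP_a3c811_h79.Lap.Sl2

/-! `ker (f ^ j N ^ j) = ker N ^ j` for an `sl2`-triple. -/

set_option autoImplicit false

noncomputable section

namespace Pool.Agent.H79L

open Module

universe v w

variable {K : Type v} [Field K] {E : Type w} [AddCommGroup E] [Module K E]
  {N f : Module.End K E} {s : ℤ → Module.End K E} {P : Finset ℤ}

/-- `f ^ j N ^ (j + 1) x` is in the range of `N` -/
theorem Sl.fN_range (h : Sl N f s P) {p : ℤ} (j : ℕ) : ∀ x : E, s p x = x →
    ∃ z, (f ^ j) ((N ^ (j + 1)) x) = N z := by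
  induction j with
  | zero => exact fun x _ => ⟨x, by simp⟩
  | succ j ih =>
    intro x hx
    have h1 := h.f_Npow hx (j + 1)
    have hy : s p (N (f x)) = N (f x) := by
      have := h.mem_N (h.mem_f hx)
      rwa [sub_add_cancel] at this
    obtain ⟨z, hz⟩ := ih (N (f x) - ((((j + 1 : ℕ) + 1) * (p + (j + 1 : ℕ)) : ℤ) : K) • x)
      (by rw [map_sub, map_smul, hy, hx])
    refine ⟨z, ?_⟩
    rw [pow_succ f, Module.End.mul_apply, h1]
    exact hz

theorem Sl.ker_pow_hom [CharZero K] (h : Sl N f s P) (j : ℕ) : ∀ (p : ℤ) (x : E), s p x = x →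
    (f ^ j) ((N ^ j) x) = 0 → (N ^ j) x = 0 := by
  induction j with
  | zero => exact fun p x _ hx => by simpa using hx
  | succ j ih =>
    intro p x hp hx
    obtain ⟨z, hz⟩ := h.fN_range j x hp
    rw [pow_succ' f, Module.End.mul_apply, hz] at hx
    have h1 := h.ker_f z hx
    rw [h1] at hz
    rw [pow_succ, Module.End.mul_apply] at hz ⊢
    exact ih (p + 2) (N x) (h.mem_N hp) hz

theorem Sl.comm_pow (h : Sl N f s P) (j : ℕ) (p : ℤ) :
    (f ^ j * N ^ j) * s p = s p * (f ^ j * N ^ j) := by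
  have hN : ∀ j : ℕ, ∀ p : ℤ, N ^ j * s p = s (p + 2 * j) * N ^ j := by
    intro j
    induction j with
    | zero => intro p; simp
    | succ j ih =>
      intro p
      rw [pow_succ, mul_assoc, h.Ns, ← mul_assoc, ih, mul_assoc,
        show p + 2 + 2 * (j : ℤ) = p + 2 * ((j + 1 : ℕ) : ℤ) by push_cast; ring]
  have hf : ∀ j : ℕ, ∀ p : ℤ, f ^ j * s p = s (p - 2 * j) * f ^ j := by
    intro j
    induction j with
    | zero => intro p; simp
    | succ j ih =>
      intro p
      rw [pow_succ, mul_assoc, h.fs, ← mul_assoc, ih, mul_assoc,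
        show p - 2 - 2 * (j : ℤ) = p - 2 * ((j + 1 : ℕ) : ℤ) by push_cast; ring]
  rw [mul_assoc, hN, ← mul_assoc, hf, add_sub_cancel_right, mul_assoc]

theorem Sl.ker_pow [CharZero K] (h : Sl N f s P) (j : ℕ) {x : E}
    (hx : (f ^ j) ((N ^ j) x) = 0) : (N ^ j) x = 0 := by
  have key : ∀ p, (N ^ j) (s p x) = 0 := by
    intro p
    refine h.ker_pow_hom j p (s p x) (LinearMap.congr_fun (h.idem p) x) ?_
    have h2 := LinearMap.congr_fun (h.comm_pow j p) x
    simp only [Module.End.mul_apply] at h2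
    rw [h2, hx, map_zero]
  have h1 : x = ∑ p ∈ P, s p x := by
    rw [← LinearMap.sum_apply, h.sum]; rfl
  rw [h1, map_sum]
  exact Finset.sum_eq_zero fun p _ => key p

theorem Sl.ker_pow' [CharZero K] (h : Sl N f s P) (j : ℕ) {x : E}
    (hx : (N ^ j) ((f ^ j) x) = 0) : (f ^ j) x = 0 := h.symm.ker_pow j hx

end Pool.Agent.H79L
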